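import Pool.Agent.W708.OC.Sem
/-!
Long options for the 6-cube: the selection of long options by a good family of relations has the
combinatorial properties `AdmE`.
-/
set_option autoImplicit false

namespace Pool.Agent.W288.SC

open Pool.Agent.W708.OC

/-- number of bits among the first six -/
def pc (m : Nat) : Nat :=
  (m % 2) + (m / 2 % 2) + (m / 4 % 2) + (m / 8 % 2) + (m / 16 % 2) + (m / 32 % 2)

/-- bit mask of a set -/
def mk (s : F6) : Nat :=
  (if (0 : Fin 6) ∈ s then 1 else 0) + (if (1 : Fin 6) ∈ s then 2 else 0) +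
  (if (2 : Fin 6) ∈ s then 4 else 0) + (if (3 : Fin 6) ∈ s then 8 else 0) +
  (if (4 : Fin 6) ∈ s then 16 else 0) + (if (5 : Fin 6) ∈ s then 32 else 0)

lemma mk_lt (s : F6) : mk s < 64 := by
  unfold mk
  split_ifs <;> omega

lemma S_mk (s : F6) : S (mk s) = s := by
  have key : ∀ b0 b1 b2 b3 b4 b5 : Bool, ∀ i : Fin 6,
      Nat.testBit ((if b0 = true then 1 else 0) + (if b1 = true then 2 else 0) +
        (if b2 = true then 4 else 0) + (if b3 = true then 8 else 0) +
        (if b4 = true then 16 else 0) + (if b5 = true then 32 else 0)) i.val =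
        ![b0, b1, b2, b3, b4, b5] i := by decide
  have h2 : mk s = (if (decide ((0 : Fin 6) ∈ s)) = true then 1 else 0) +
      (if (decide ((1 : Fin 6) ∈ s)) = true then 2 else 0) +
      (if (decide ((2 : Fin 6) ∈ s)) = true then 4 else 0) +
      (if (decide ((3 : Fin 6) ∈ s)) = true then 8 else 0) +
      (if (decide ((4 : Fin 6) ∈ s)) = true then 16 else 0) +
      (if (decide ((5 : Fin 6) ∈ s)) = true then 32 else 0) := by
    simp only [decide_eq_true_eq]
    rfl
  ext i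
  rw [S, Finset.mem_filter, h2, key]
  simp only [Finset.mem_univ, true_and]
  fin_cases i <;> simp

lemma S_card : ∀ m, m < 64 → (S m).card = pc m := by decide +kernel

lemma S_sub {a b : Nat} (ha : a < 64) : S a ⊆ S b ↔ a &&& b = a := by
  constructor
  · intro h
    apply Nat.eq_of_testBit_eq
    intro i
    rw [Nat.testBit_and]
    by_cases hi : i < 6
    · have h1 : (⟨i, hi⟩ : Fin 6) ∈ S a → (⟨i, hi⟩ : Fin 6) ∈ S b := fun h' => h h'
      simp only [S, Finset.mem_filter, Finset.mem_univ, true_and] at h1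
      by_cases h2 : a.testBit i = true
      · rw [h2, h1 h2]; rfl
      · simp only [Bool.not_eq_true] at h2
        rw [h2]; rfl
    · have h3 : a.testBit i = false := by
        apply Nat.testBit_lt_two_pow
        calc a < 2 ^ 6 := by simpa using ha
          _ ≤ 2 ^ i := Nat.pow_le_pow_right (by norm_num) (by omega)
      rw [h3]; rfl
  · intro h i hi
    simp only [S, Finset.mem_filter, Finset.mem_univ, true_and] at hi ⊢
    rw [← h, Nat.testBit_and] at hi
    simp only [Bool.and_eq_true] at hi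
    exact hi.2

lemma S_inj {a b : Nat} (ha : a < 64) (hb : b < 64) (h : S a = S b) : a = b := by
  have h1 := (S_sub (b := b) ha).1 (by rw [h])
  have h2 := (S_sub (b := a) hb).1 (by rw [h])
  rw [← h1, Nat.and_comm]
  exact h2

/-! ### table facts -/

lemma tab_q : ∀ q, q < 180 → (dX q < 64 ∧ dT q < 64 ∧ dY q < 64 ∧ pc (dX q) = 2 ∧ pc (dT q) = 3 ∧
    pc (dY q) = 4) := by decide +kernel

lemma tab_l' : ∀ q, q < 180 → ∀ v, v < 4 → (eA (16 * q + v) < 64 ∧ eF (16 * q + v) < 64 ∧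
    pc (eA (16 * q + v)) = 1 ∧ pc (eF (16 * q + v)) = 5) := by
  decide +kernel

lemma eA_eq (q d v : Nat) (hd : d < 4) (hv : v < 4) : eA (16 * q + 4 * d + v) = eA (16 * q + v) := by
  have h1 : (16 * q + 4 * d + v) / 16 = (16 * q + v) / 16 := by omega
  have h2 : (16 * q + 4 * d + v) % 4 = (16 * q + v) % 4 := by omega
  have h1' : Nat.div (16 * q + 4 * d + v) 16 = Nat.div (16 * q + v) 16 := h1
  have h2' : Nat.mod (16 * q + 4 * d + v) 4 = Nat.mod (16 * q + v) 4 := h2
  unfold eA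
  rw [h1', h2']

lemma eF_eq (q d v : Nat) (hd : d < 4) (hv : v < 4) : eF (16 * q + 4 * d + v) = eF (16 * q + v) := by
  have h1 : (16 * q + 4 * d + v) / 16 = (16 * q + v) / 16 := by omega
  have h2 : (16 * q + 4 * d + v) % 4 = (16 * q + v) % 4 := by omega
  have h1' : Nat.div (16 * q + 4 * d + v) 16 = Nat.div (16 * q + v) 16 := h1
  have h2' : Nat.mod (16 * q + 4 * d + v) 4 = Nat.mod (16 * q + v) 4 := h2
  unfold eF
  rw [h1', h2']

lemma decomp (l : Nat) (hl : l < 2880) : ∃ q d v, q < 180 ∧ d < 4 ∧ v < 4 ∧ l = 16 * q + 4 * d + v ∧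
    l / 16 = q ∧ (l / 4) % 4 = d :=
  ⟨l / 16, (l / 4) % 4, l % 4, by omega, by omega, by omega, by omega, rfl, rfl⟩

lemma tab_l (l : Nat) (hl : l < 2880) : eA l < 64 ∧ eF l < 64 ∧ pc (eA l) = 1 ∧ pc (eF l) = 5 := by
  obtain ⟨q, d, v, hq, hd, hv, rfl, -, -⟩ := decomp l hl
  rw [eA_eq q d v hd hv, eF_eq q d v hd hv]
  exact tab_l' q hq v hv

lemma q_inj : ∀ q, q < 180 → ∀ r, r < 180 → dX q = dX r → dT q = dT r → dY q = dY r → q = r := by
  decide +kernel

lemma v_inj : ∀ q, q < 180 → ∀ v, v < 4 → ∀ w, w < 4 → eA (16 * q + v) = eA (16 * q + w) →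
    eF (16 * q + v) = eF (16 * q + w) → v = w := by
  decide +kernel

lemma l_inj (l m : Nat) (hl : l < 2880) (hm : m < 2880) (hA : eA l = eA m) (hX : dX (l / 16) = dX (m / 16))
    (hT : dT (l / 16) = dT (m / 16)) (hY : dY (l / 16) = dY (m / 16)) (hF : eF l = eF m)
    (hd : (l / 4) % 4 = (m / 4) % 4) : l = m := by
  obtain ⟨q, d, v, hq, hd1, hv, hle, h1, h2⟩ := decomp l hl
  obtain ⟨r, e, w, hr, he1, hw, hme, h3, h4⟩ := decomp m hm
  rw [h1, h3] at hX hT hY
  have hqr := q_inj q hq r hr hX hT hY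
  subst hqr
  rw [h2, h4] at hd
  subst hd
  rw [hle, hme, eA_eq q d v hd1 hv, eA_eq q d w hd1 hw] at hA
  rw [hle, hme, eF_eq q d v hd1 hv, eF_eq q d w hd1 hw] at hF
  have := v_inj q hq v hv w hw hA hF
  omega

/-- every chain of masks is a long option -/
def complete : Bool :=
  (List.range 64).all (fun x => pc x != 2 || (List.range 64).all (fun t =>
    pc t != 3 || (Nat.land x t != x) || (List.range 64).all (fun y =>
      pc y != 4 || (Nat.land t y != t) ||
        (List.range 180).any (fun q => (dX q == x && dT q == t && dY q == y) &&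
          (List.range 64).all (fun a => pc a != 1 || (Nat.land a x != a) ||
            (List.range 64).all (fun f => pc f != 5 || (Nat.land y f != y) ||
              (List.range 4).any (fun v => eA (16 * q + v) == a && eF (16 * q + v) == f)))))))

lemma complete_true : complete = true := by decide +kernel

lemma exists_opt (A X T Y F : F6) (cA : A.card = 1) (cX : X.card = 2) (cT : T.card = 3)
    (cY : Y.card = 4) (cF : F.card = 5) (hAX : A ⊆ X) (hXT : X ⊆ T) (hTY : T ⊆ Y) (hYF : Y ⊆ F)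
    (d : Nat) (hd : d < 4) :
    ∃ l, l < 2880 ∧ S (eA l) = A ∧ S (dX (l / 16)) = X ∧ S (dT (l / 16)) = T ∧ S (dY (l / 16)) = Y ∧
      S (eF l) = F ∧ (l / 4) % 4 = d := by
  have hA := mk_lt A
  have hX := mk_lt X
  have hT := mk_lt T
  have hY := mk_lt Y
  have hF := mk_lt F
  have pA : pc (mk A) = 1 := by rw [← S_card _ hA, S_mk]; exact cA
  have pX : pc (mk X) = 2 := by rw [← S_card _ hX, S_mk]; exact cX
  have pT : pc (mk T) = 3 := by rw [← S_card _ hT, S_mk]; exact cT
  have pY : pc (mk Y) = 4 := by rw [← S_card _ hY, S_mk]; exact cY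
  have pF : pc (mk F) = 5 := by rw [← S_card _ hF, S_mk]; exact cF
  have sAX : Nat.land (mk A) (mk X) = mk A := (S_sub hA).1 (by rw [S_mk, S_mk]; exact hAX)
  have sXT : Nat.land (mk X) (mk T) = mk X := (S_sub hX).1 (by rw [S_mk, S_mk]; exact hXT)
  have sTY : Nat.land (mk T) (mk Y) = mk T := (S_sub hT).1 (by rw [S_mk, S_mk]; exact hTY)
  have sYF : Nat.land (mk Y) (mk F) = mk Y := (S_sub hY).1 (by rw [S_mk, S_mk]; exact hYF)
  have hc := complete_true
  unfold complete at hc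
  rw [List.all_eq_true] at hc
  have h1 := hc (mk X) (List.mem_range.2 hX)
  rw [pX] at h1
  simp only [bne_self_eq_false, Bool.false_or] at h1
  rw [List.all_eq_true] at h1
  have h2 := h1 (mk T) (List.mem_range.2 hT)
  rw [pT, sXT] at h2
  simp only [bne_self_eq_false, Bool.false_or] at h2
  rw [List.all_eq_true] at h2
  have h3 := h2 (mk Y) (List.mem_range.2 hY)
  rw [pY, sTY] at h3
  simp only [bne_self_eq_false, Bool.false_or] at h3
  rw [List.any_eq_true] at h3
  obtain ⟨q, hq, h4⟩ := h3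
  rw [List.mem_range] at hq
  rw [Bool.and_eq_true] at h4
  obtain ⟨h5, h6⟩ := h4
  simp only [Bool.and_eq_true, beq_iff_eq] at h5
  obtain ⟨⟨e1, e2⟩, e3⟩ := h5
  rw [List.all_eq_true] at h6
  have h7 := h6 (mk A) (List.mem_range.2 hA)
  rw [pA, sAX] at h7
  simp only [bne_self_eq_false, Bool.false_or] at h7
  rw [List.all_eq_true] at h7
  have h8 := h7 (mk F) (List.mem_range.2 hF)
  rw [pF, sYF] at h8
  simp only [bne_self_eq_false, Bool.false_or] at h8
  rw [List.any_eq_true] at h8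
  obtain ⟨v, hv, h9⟩ := h8
  rw [List.mem_range] at hv
  simp only [Bool.and_eq_true, beq_iff_eq] at h9
  obtain ⟨e4, e5⟩ := h9
  have hq16 : (16 * q + 4 * d + v) / 16 = q := by omega
  refine ⟨16 * q + 4 * d + v, by omega, ?_, ?_, ?_, ?_, ?_, by omega⟩
  · rw [eA_eq q d v hd hv, e4, S_mk]
  · rw [hq16, e1, S_mk]
  · rw [hq16, e2, S_mk]
  · rw [hq16, e3, S_mk]
  · rw [eF_eq q d v hd hv, e5, S_mk]

section main

variable {R : Fin 4 → F6 → F6 → Prop} (hR : Good R)

include hR

lemma sub_of_card {d : Fin 4} {s t : F6} (h : R d s t) (hc : s.card < t.card) : s ⊆ t := by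
  rcases hR.comp d s t h with h1 | h1
  · exact h1
  · exact absurd (Finset.card_le_card h1) (by omega)

lemma eq_of_card {d : Fin 4} {s t : F6} (h : R d s t) (hc : s.card = t.card) : s = t := by
  rcases hR.comp d s t h with h1 | h1
  · exact Finset.eq_of_subset_of_card_le h1 (by omega)
  · exact (Finset.eq_of_subset_of_card_le h1 (by omega)).symm

lemma link {d : Fin 4} {r s t : F6} (h1 : R d r s) (h2 : R d r t) : R d s t :=
  hR.trans d s r t (hR.symm d r s h1) h2

/-- the five sets of a selected long option -/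
lemma data {l : Nat} (h : QR R l) : l < 2880 ∧ (S (eA l)).card = 1 ∧ (S (dX (l / 16))).card = 2 ∧
    (S (dT (l / 16))).card = 3 ∧ (S (dY (l / 16))).card = 4 ∧ (S (eF l)).card = 5 ∧
    R (col (l / 4)) (S (eA l)) (S (dX (l / 16))) ∧ R (col (l / 4)) (S (eA l)) (S (dT (l / 16))) ∧
    R (col (l / 4)) (S (eA l)) (S (dY (l / 16))) ∧ R (col (l / 4)) (S (eA l)) (S (eF l)) := by
  obtain ⟨⟨h1, h2, h3⟩, h4, h5⟩ := h
  have hdiv : l / 4 / 4 = l / 16 := by omega
  rw [hdiv] at h2 h3
  have hl : l < 2880 := by omega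
  have hq : l / 16 < 180 := by omega
  obtain ⟨a1, a2, a3, a4, a5, a6⟩ := tab_q _ hq
  obtain ⟨b1, b2, b3, b4⟩ := tab_l _ hl
  have c1 := hR.trans _ _ _ _ h4 h2
  have c2 := hR.trans _ _ _ _ c1 h3
  have c3 := hR.trans _ _ _ _ c2 h5
  refine ⟨hl, ?_, ?_, ?_, ?_, ?_, h4, c1, c2, c3⟩
  · rw [S_card _ b1, b3]
  · rw [S_card _ a1, a4]
  · rw [S_card _ a2, a5]
  · rw [S_card _ a3, a6]
  · rw [S_card _ b2, b4]

lemma mkQ {d : Fin 4} {A X T Y F : F6} (cA : A.card = 1) (cX : X.card = 2) (cT : T.card = 3)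
    (cY : Y.card = 4) (cF : F.card = 5) (h1 : R d A X) (h2 : R d A T) (h3 : R d A Y)
    (h4 : R d A F) : ∃ l, QR R l ∧ S (eA l) = A ∧ S (eF l) = F ∧ (l / 4) % 4 = d.val ∧ l < 2880 := by
  have hXT := link hR h1 h2
  have hTY := link hR h2 h3
  have hYF := link hR h3 h4
  obtain ⟨l, hl, e1, e2, e3, e4, e5, e6⟩ := exists_opt A X T Y F cA cX cT cY cF
    (sub_of_card hR h1 (by omega)) (sub_of_card hR hXT (by omega)) (sub_of_card hR hTY (by omega))
    (sub_of_card hR hYF (by omega)) d.val d.isLt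
  have hcol : col (l / 4) = d := Fin.ext e6
  have hdiv : l / 4 / 4 = l / 16 := by omega
  refine ⟨l, ⟨⟨by omega, ?_, ?_⟩, ?_, ?_⟩, e1, e5, e6, hl⟩
  · rw [hcol, hdiv, e2, e3]; exact hXT
  · rw [hcol, hdiv, e3, e4]; exact hTY
  · rw [hcol, e1, e2]; exact h1
  · rw [hcol, e4, e5]; exact hYF

lemma same_col {l m : Nat} (hl : QR R l) (hm : QR R m) (hd : (l / 4) % 4 = (m / 4) % 4)
    (h : eA l = eA m ∨ eF l = eF m ∨ dX (l / 16) = dX (m / 16)) : l = m := by
  obtain ⟨l0, l1, l2, l3, l4, l5, l6, l7, l8, l9⟩ := data hR hl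
  obtain ⟨m0, m1, m2, m3, m4, m5, m6, m7, m8, m9⟩ := data hR hm
  have hcol : col (m / 4) = col (l / 4) := Fin.ext hd.symm
  rw [hcol] at m6 m7 m8 m9
  -- the two bottoms agree
  have hAA : R (col (l / 4)) (S (eA l)) (S (eA m)) := by
    rcases h with h | h | h
    · rw [h] at l6 ⊢
      exact hR.trans _ _ _ _ l6 (hR.symm _ _ _ l6)
    · rw [h] at l9
      exact hR.trans _ _ _ _ l9 (hR.symm _ _ _ m9)
    · rw [h] at l6
      exact hR.trans _ _ _ _ l6 (hR.symm _ _ _ m6)
  have hqA := eq_of_card hR hAA (by omega)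
  rw [← hqA] at m6 m7 m8 m9
  have hqX := eq_of_card hR (link hR l6 m6) (by omega)
  have hqT := eq_of_card hR (link hR l7 m7) (by omega)
  have hqY := eq_of_card hR (link hR l8 m8) (by omega)
  have hqF := eq_of_card hR (link hR l9 m9) (by omega)
  obtain ⟨a1, a2, a3, -, -, -⟩ := tab_q (l / 16) (by omega)
  obtain ⟨a1', a2', a3', -, -, -⟩ := tab_q (m / 16) (by omega)
  obtain ⟨b1, b2, -, -⟩ := tab_l _ l0
  obtain ⟨b1', b2', -, -⟩ := tab_l _ m0
  exact l_inj l m l0 m0 (S_inj b1 b1' hqA) (S_inj a1 a1' hqX) (S_inj a2 a2' hqT)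
    (S_inj a3 a3' hqY) (S_inj b2 b2' hqF) hd

/-- the selection of long options by a good family of relations -/
theorem admE_aux : AdmE (QR R) where
  lt l h := (data hR h).1
  iA a ha d hd := by
    have hA : (S (2 ^ a)).card = 1 := by
      have : ∀ a, a < 6 → (S (2 ^ a)).card = 1 := by decide +kernel
      exact this a ha
    obtain ⟨X, cX, hX⟩ := hR.up ⟨d, hd⟩ (S (2 ^ a)) 2 (by omega) (by omega)
    obtain ⟨T, cT, hT⟩ := hR.up ⟨d, hd⟩ (S (2 ^ a)) 3 (by omega) (by omega)
    obtain ⟨Y, cY, hY⟩ := hR.up ⟨d, hd⟩ (S (2 ^ a)) 4 (by omega) (by omega)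
    obtain ⟨F, cF, hF⟩ := hR.up ⟨d, hd⟩ (S (2 ^ a)) 5 (by omega) (by omega)
    obtain ⟨l, h1, h2, -, h4, h5⟩ := mkQ hR hA cX cT cY cF hX hT hY hF
    refine ⟨l, h1, S_inj (tab_l l h5).1 ?_ h2, h4⟩
    have : ∀ a, a < 6 → 2 ^ a < 64 := by decide
    exact this a ha
  iF a ha d hd := by
    have hF : (S (63 - 2 ^ a)).card = 5 := by
      have : ∀ a, a < 6 → (S (63 - 2 ^ a)).card = 5 := by decide +kernel
      exact this a ha
    obtain ⟨A, cA, hA⟩ := hR.down ⟨d, hd⟩ (S (63 - 2 ^ a)) 1 (by omega) (by omega)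
    obtain ⟨X, cX, hX⟩ := hR.down ⟨d, hd⟩ (S (63 - 2 ^ a)) 2 (by omega) (by omega)
    obtain ⟨T, cT, hT⟩ := hR.down ⟨d, hd⟩ (S (63 - 2 ^ a)) 3 (by omega) (by omega)
    obtain ⟨Y, cY, hY⟩ := hR.down ⟨d, hd⟩ (S (63 - 2 ^ a)) 4 (by omega) (by omega)
    obtain ⟨l, h1, -, h3, h4, h5⟩ := mkQ hR cA cX cT cY hF (link hR hA hX) (link hR hA hT)
      (link hR hA hY) (hR.symm _ _ _ hA)
    exact ⟨l, h1, S_inj (tab_l l h5).2.1 (lt_of_le_of_lt (Nat.sub_le _ _) (by norm_num)) h3, h4⟩
  cD l m hl hm hne h := hne (same_col hR hl hm h.1 h.2)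
  cA l m hl hm hne h := by
    obtain ⟨hA, h⟩ := h
    by_cases hd : (l / 4) % 4 = (m / 4) % 4
    · exact hne (same_col hR hl hm hd (Or.inl hA))
    · obtain ⟨l0, l1, l2, l3, l4, l5, l6, l7, l8, l9⟩ := data hR hl
      obtain ⟨m0, m1, m2, m3, m4, m5, m6, m7, m8, m9⟩ := data hR hm
      have hcol : col (l / 4) ≠ col (m / 4) := fun h' => hd (congrArg Fin.val h')
      rw [← hA] at m6 m7 m8 m9
      have ne : ∀ B : F6, 1 < B.card → S (eA l) ≠ B := by
        intro B hB h'
        rw [← h'] at hB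
        omega
      rcases h with h | h | h | h
      · rw [← h] at m6
        exact hR.orth _ _ _ _ hcol (ne _ (by omega)) (by omega) (by omega) l6 m6
      · rw [← h] at m7
        exact hR.orth _ _ _ _ hcol (ne _ (by omega)) (by omega) (by omega) l7 m7
      · rw [← h] at m8
        exact hR.orth _ _ _ _ hcol (ne _ (by omega)) (by omega) (by omega) l8 m8
      · rw [← h] at m9
        exact hR.orth _ _ _ _ hcol (ne _ (by omega)) (by omega) (by omega) l9 m9
  cF l m hl hm hne h := by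
    obtain ⟨hF, h⟩ := h
    by_cases hd : (l / 4) % 4 = (m / 4) % 4
    · exact hne (same_col hR hl hm hd (Or.inr (Or.inl hF)))
    · obtain ⟨l0, l1, l2, l3, l4, l5, l6, l7, l8, l9⟩ := data hR hl
      obtain ⟨m0, m1, m2, m3, m4, m5, m6, m7, m8, m9⟩ := data hR hm
      have hcol : col (l / 4) ≠ col (m / 4) := fun h' => hd (congrArg Fin.val h')
      rw [← hF] at m9
      have ne : ∀ B : F6, B.card < 5 → B ≠ S (eF l) := by
        intro B hB h'
        rw [h'] at hB
        omega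
      rcases h with h | h | h
      · rw [← h] at m6
        exact hR.orth _ _ _ _ hcol (ne _ (by omega)) (by omega) (by omega) (link hR l6 l9)
          (link hR m6 m9)
      · rw [← h] at m7
        exact hR.orth _ _ _ _ hcol (ne _ (by omega)) (by omega) (by omega) (link hR l7 l9)
          (link hR m7 m9)
      · rw [← h] at m8
        exact hR.orth _ _ _ _ hcol (ne _ (by omega)) (by omega) (by omega) (link hR l8 l9)
          (link hR m8 m9)

end main

/-- the selection of long options by a good family of relations -/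
theorem admE_of_good (R : Fin 4 → F6 → F6 → Prop) (hR : Good R) : AdmE (QR R) := admE_aux hR

end Pool.Agent.W288.SC
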